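import Mathlib
import Pool.Agent.D0H53.CL.C15

/-!
# The Gauss circle problem at integer radii: Brownian fluctuations in thin annuli

For integer radii `n`, the surpluses of lattice points in adjacent thin annuli
`n + ρ u_i < |p| ≤ n + ρ u_{i+1}` around the circle of radius `n`, normalised by `4 √(n ρ log (1/ρ))` and
centred at the bias `β(ρ u_{i+1}) - β(ρ u_i)`, `β(h) = (8√2/π) √h log (1/h)` for `h > 0` and `β(h) = 0`
for `h ≤ 0`, converge jointly to independent centred Gaussian variables of variances `u_{i+1} - u_i` (the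
increments of a two-sided Brownian motion), and are asymptotically independent of the error term
`(#{|p| ≤ n} - π n²)/√n` at the circle of radius `n` itself, which has its own (non-Gaussian) limit law
`ν`. This holds in all short windows `(k, k + N]`, `N ≥ k^(1/2 + ε)`, uniformly in the width `ρ`.
-/

set_option autoImplicit false

open MeasureTheory ProbabilityTheory

namespace Pool.Agent.Results.MP_fb29e9_nt.BrownianAnnuli

/-- number of lattice points `p` with `r < |p| ≤ s`, minus the area of the annulus -/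
noncomputable def surplus (r s : ℝ) : ℝ :=
  (Nat.card {p : ℤ × ℤ // r ^ 2 < (p.1 : ℝ) ^ 2 + (p.2 : ℝ) ^ 2 ∧
    (p.1 : ℝ) ^ 2 + (p.2 : ℝ) ^ 2 ≤ s ^ 2} : ℝ) - Real.pi * (s ^ 2 - r ^ 2)

/-- the bias at distance `h` outside a circle of integer radius; it is `0` for `h ≤ 0`, where `√h = 0` -/
noncomputable def bias (h : ℝ) : ℝ := 8 * √2 / Real.pi * √h * Real.log (1 / h)

/-- the normalised error term at the circle of radius `n`, and the centred and normalised surpluses of
the `d` adjacent annuli `n + ρ u_i < |p| ≤ n + ρ u_{i+1}` around it -/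
noncomputable def vec {d : ℕ} (ρ : ℝ) (u : Fin (d + 1) → ℝ) (n : ℕ) : ℝ × (Fin d → ℝ) :=
  (((Nat.card {p : ℤ × ℤ // (p.1 : ℝ) ^ 2 + (p.2 : ℝ) ^ 2 ≤ (n : ℝ) ^ 2} : ℝ) - Real.pi * (n : ℝ) ^ 2) / √n,
    fun i => (surplus (n + ρ * u i.castSucc) (n + ρ * u i.succ) / √n -
      (bias (ρ * u i.succ) - bias (ρ * u i.castSucc))) / (4 * √(ρ * Real.log (1 / ρ))))

/-- **Brownian fluctuations in thin annuli around circles of integer radius.** There is a probability
measure `ν` on `ℝ` such that for every `d`, all real `u_0 ≤ … ≤ u_d`, every bounded continuous function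
`f` on `ℝ × ℝ^d` and all `ε, η > 0` there are `c > 0` and `N₀` such that for all `N ≥ N₀`, all `k` with
`k^(1/2 + ε) ≤ N` and all widths `N^(-c) ≤ ρ ≤ c`, the average over the integers `k < n ≤ k + N` of
`f` at the vector `vec ρ u n` differs by at most `η` from the integral of `f` against the product of `ν` and
of the centred Gaussian laws of variances `u_{i+1} - u_i`. -/
theorem result : ∃ ν : ProbabilityMeasure ℝ, ∀ (d : ℕ) (u : Fin (d + 1) → ℝ), Monotone u →
    ∀ f : ℝ × (Fin d → ℝ) → ℝ, Continuous f → (∃ B, ∀ x, |f x| ≤ B) →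
    ∀ ε : ℝ, 0 < ε → ∀ η : ℝ, 0 < η → ∃ c : ℝ, 0 < c ∧ ∃ N₀ : ℕ, ∀ N : ℕ, N₀ ≤ N →
    ∀ k : ℕ, (k : ℝ) ^ (1 / 2 + ε) ≤ N → ∀ ρ : ℝ, (N : ℝ) ^ (-c) ≤ ρ → ρ ≤ c →
    |(∑ n ∈ Finset.Ioc k (k + N), f (vec ρ u n)) / N -
      ∫ x, f x ∂((ν : Measure ℝ).prod
        (Measure.pi (fun i : Fin d => gaussianReal 0 (Real.toNNReal (u i.succ - u i.castSucc)))))| ≤ η :=
  Pool.Agent.D0H53.CL.brown

end Pool.Agent.Results.MP_fb29e9_nt.BrownianAnnuli
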