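import Pool.Agent.D0H48.Cl.Const

/-!
# The central limit theorem for the error term of the circle problem along geometric progressions

`P(R)` is the error term of the circle problem.  Let `a_n` be real with `a_{n+1} ≥ a_n + δ`, `δ > 0`, let `b_n > 0` be
nondecreasing and `R_n = b_n α ^ (a_n)`, for example `R_n = α ^ n`.  If `α > 1` is random with any absolutely continuous
law, then `N ^ (-1/2) ∑_{n < N} P(R_n) / √R_n` converges in law to the normal distribution with mean zero and variance
`∑ r(m)² / (2 π² m ^ (3/2))`.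

Proof.  `P(R) / √R` is replaced by the truncation at frequencies `≤ M²` of its trigonometric series, with `M` a small
power of `n` for `R = R_n`; the error is `o(√N)` in the sum for almost all `α` (orthogonality and a maximal inequality).
The characteristic function of the sum over a window is expanded recursively: if `F` is the exponential of the sum of
the terms up to `n`, the `n`-th term is replaced by its Taylor expansion, and the products with the amplitude of `F` at
time `n - h`, `h` of the order of `log² n`, are evaluated by partial integration, since the frequencies of the `n`-th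
term are larger by an exponential factor than the derivatives of the amplitude.
-/

set_option autoImplicit false

open MeasureTheory Filter Topology Set ProbabilityTheory

namespace Pool.Agent.Results.MP_fb29e9_nt.CentralLimitAlongPowers

/-- the error term of the circle problem -/
noncomputable def P (R : ℝ) : ℝ :=
  (Nat.card {p : ℤ × ℤ // (p.1 : ℝ) ^ 2 + (p.2 : ℝ) ^ 2 ≤ R ^ 2} : ℝ) - Real.pi * R ^ 2

/-- the variance: `∑ r(m)² / (2 π² m ^ (3/2))` over `m ≥ 1`, with `r(m)` the number of representations as a sum of two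
squares -/
noncomputable def V : ℝ :=
  ∑' m : ℕ, (Nat.card {p : ℤ × ℤ // p.1 ^ 2 + p.2 ^ 2 = (m : ℤ)} : ℝ) ^ 2 / (2 * Real.pi ^ 2 * (m : ℝ) ^ (3 / 2 : ℝ))

theorem result (a b : ℕ → ℝ) (δ : ℝ) (hδ : 0 < δ) (ha : ∀ n, a n + δ ≤ a (n + 1)) (hb : ∀ n, 0 < b n) (hmono : Monotone b) :
    0 < V ∧ ∀ (ν : Measure ℝ) [IsProbabilityMeasure ν], ν ≪ volume → ν (Iic 1) = 0 → ∀ x : ℝ,
      Tendsto (fun N : ℕ => ν {α : ℝ | ∑ n ∈ Finset.range N, P (b n * α ^ (a n)) / √(b n * α ^ (a n)) ≤ x * √(N : ℝ)}) atTop
        (𝓝 (gaussianReal 0 (Real.toNNReal V) (Iic x))) := by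
  have hV : V = Pool.Agent.D0H48.Cl.VV Pool.Agent.H383.Circ.ag := Pool.Agent.D0H48.Cl.VV_circ.symm
  rw [hV]
  refine ⟨Pool.Agent.D0H48.Cl.VV_circ_pos, fun ν _ hν hν1 x => ?_⟩
  exact Pool.Agent.D0H48.Cl.clt Pool.Agent.D0H48.Gr.circ_mod.1.ctx hδ ha hb hmono Pool.Agent.D0H48.Cl.VV_circ_pos ν hν hν1 x

end Pool.Agent.Results.MP_fb29e9_nt.CentralLimitAlongPowers
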