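import Pool.Agent.D0H48.Gr.Inst

/-!
# The growth of the error term of the circle problem along almost all geometric progressions

`P(R)` is the error term of the circle problem.  Let `a_n` be real with `a_{n+1} ≥ a_n + δ`, `δ > 0`, let `b_n > 0` be
nondecreasing and `R_n = b_n α ^ (a_n)`, for example `R_n = α ^ n`.  For almost all `α > 1` the exact order of growth of
`P(R_n) / √R_n` is `(log n) ^ (1/4 + o(1))`, for both signs, and values of this size are taken at `N ^ (1 - o(1))`
of the `n < N`.

Proof.  Let `U_M` be the truncation at frequencies `≤ M²` of the trigonometric series of `P(R) / √R`, and let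
`2^j ≤ n < 2^(j+1)`.  The moment generating functions of `U_M` in the model with independent phases are bounded by
`exp(L |t| ^ p)`, `p > 4/3`, and this gives the bound `2 (L (2r)^(1/4+ε))^(2r)` for the moments of order `2r`, and a much
smaller bound for the part of the series above `M²`.  The moments of order `2r ≤ j/2` of `U_M(R_n)` with respect to
`log α` are equal to those of the model up to a negligible error, since `R_n` is exponentially large in `n`; this
gives the upper bound, and the approximation of `P(R_n)/√R_n` by `U_M(R_n)` with `M = (j+1)^5` up to a bounded error.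
For the lower bound the sum over the block of `(U_M(R_n) + T)^(2r)`, `T = (j+1)^(1/4+ε)`, `r = j / (400 (log_2 j + 1))`,
is evaluated for almost all `α` by means of its second moment; by the lower bound `exp(-C K⁴ log³ K)` for
the tails of the limit law the terms with `U_M(R_n) ≥ (j+1)^(1/4-ε)` must contribute the main part of the sum.
-/

set_option autoImplicit false

open MeasureTheory Filter Topology Set

namespace Pool.Agent.Results.MP_fb29e9_nt.GrowthAlongPowers

/-- the error term of the circle problem -/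
noncomputable def P (R : ℝ) : ℝ :=
  (Nat.card {p : ℤ × ℤ // (p.1 : ℝ) ^ 2 + (p.2 : ℝ) ^ 2 ≤ R ^ 2} : ℝ) - Real.pi * R ^ 2

open Classical in
theorem result (a b : ℕ → ℝ) (δ : ℝ) (hδ : 0 < δ) (ha : ∀ n, a n + δ ≤ a (n + 1)) (hb : ∀ n, 0 < b n) (hmono : Monotone b) :
    ∀ᵐ α : ℝ, 1 < α → ∀ ε : ℝ, 0 < ε →
      (∀ᶠ n : ℕ in atTop, |P (b n * α ^ (a n))| ≤ (Real.log n) ^ (1 / 4 + ε) * √(b n * α ^ (a n))) ∧
      (∀ᶠ N : ℕ in atTop, (N : ℝ) ^ (1 - ε) ≤ (((Finset.range N).filter fun n : ℕ =>
        (Real.log N) ^ (1 / 4 - ε) * √(b n * α ^ (a n)) ≤ P (b n * α ^ (a n))).card : ℝ)) ∧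
      (∀ᶠ N : ℕ in atTop, (N : ℝ) ^ (1 - ε) ≤ (((Finset.range N).filter fun n : ℕ =>
        P (b n * α ^ (a n)) ≤ -((Real.log N) ^ (1 / 4 - ε) * √(b n * α ^ (a n)))).card : ℝ)) := by
  have h1 := Pool.Agent.D0H48.Gr.growth Pool.Agent.D0H48.Gr.circ_mod.1 hδ ha hb hmono
  have h2 := Pool.Agent.D0H48.Gr.growth Pool.Agent.D0H48.Gr.circ_mod.2 hδ ha hb hmono
  have hE : ∀ R : ℝ, Pool.Agent.H383.Gauss.En R = P R / √R := fun R => (Pool.Agent.R306.Circ.P_En R).symm
  filter_upwards [h1, h2] with α g1 g2 hα ε hε
  have hR : ∀ n : ℕ, 0 < √(b n * α ^ (a n)) := fun n =>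
    Real.sqrt_pos.mpr (mul_pos (hb n) (Real.rpow_pos_of_pos (by linarith) _))
  obtain ⟨k1, k2⟩ := g1 hα ε hε
  obtain ⟨-, k3⟩ := g2 hα ε hε
  refine ⟨?_, ?_, ?_⟩
  · filter_upwards [k1] with n hn
    rw [hE, abs_div, abs_of_pos (hR n), div_le_iff₀ (hR n)] at hn
    exact hn
  · filter_upwards [k2] with N hN
    refine hN.trans (le_of_eq ?_)
    congr 2
    apply Finset.filter_congr
    intro n _
    rw [hE, le_div_iff₀ (hR n)]
  · filter_upwards [k3] with N hN
    refine hN.trans (le_of_eq ?_)
    congr 2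
    apply Finset.filter_congr
    intro n _
    rw [hE, ← neg_div, le_div_iff₀ (hR n)]
    constructor <;> intro h <;> linarith

end Pool.Agent.Results.MP_fb29e9_nt.GrowthAlongPowers
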