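import Mathlib
import Pool.Agent.D0H53.SQ.Circ

open Filter Topology MeasureTheory

namespace Pool.Agent.Results.MP_fb29e9_nt.SparseMultiplicativeSets

open Classical in
/-- The error term of the Gauss circle problem along sparse multiplicative sets of squared radii, in particular at
the sums of two squares (the points where the number of lattice points jumps). Let
`E(x) = (#{p ∈ ℤ² : |p|² ≤ x} - πx)/x^{1/4}` and `r(m) = #{p ∈ ℤ² : |p|² = m}`. There is a law `ν` on `ℝ`, with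
a density that extends to an entire function and with full support, and for all positive integers
`a_1, …, a_k` and all integers `b_1, …, b_k ≥ 0` a law `μ` on `ℝ^k` (with all marginals equal to `ν`, means `0` and
covariances `∫ x_i x_j dμ = (1/(2π²)) ∑_h r(uh) r(vh) (uvh²)^{-3/4}` if `a_i = dv`, `a_j = du`, `(u, v) = 1`) such
that the following holds for EVERY set `S` of natural numbers with a multiplicative indicator function
(`1 ∈ S`, and `mn ∈ S ↔ m ∈ S ∧ n ∈ S` for coprime `m`, `n`) for which `∑_{p ≤ y, p ∈ S} log p ≥ κy` for some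
`κ > 0` and all large `y` (such a set may have density `0`): the vectors `e_n = (E(a_1 n + b_1), …, E(a_k n + b_k))`,
`n ∈ S`, have the limit law `μ`, the same for all `S`; moreover
`∑_{n ≤ N, n ∈ S} g(n) e^{2πiαn} (f(e_n) - ∫ f dμ) = o(#(S ∩ [1, N]))` uniformly over all real `α` and all
multiplicative `g` with `|g| ≤ 1`, for every continuous `f` of at most quadratic growth and for the indicator
function `f` of every set `D` with `μ(∂D) = 0`. The sums of two squares form such a set: among the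
`n ≤ N` that are sums of two squares, the proportion of those with `e_n ∈ D` tends to `μ(D)`. -/
theorem result (E : ℝ → ℝ)
    (hE : ∀ x : ℝ, E x =
      ((Nat.card {p : ℤ × ℤ // (p.1 : ℝ) ^ 2 + (p.2 : ℝ) ^ 2 ≤ x} : ℝ) - Real.pi * x) / x ^ (1 / 4 : ℝ))
    (r : ℕ → ℕ) (hr : ∀ m : ℕ, r m = Nat.card {p : ℤ × ℤ // p.1 ^ 2 + p.2 ^ 2 = (m : ℤ)}) :
    ∃ (ν : ProbabilityMeasure ℝ) (G : ℂ → ℂ),
      Differentiable ℂ G ∧ (∀ x : ℝ, 0 ≤ (G x).re ∧ (G x).im = 0) ∧
      (ν : Measure ℝ) = volume.withDensity (fun x : ℝ => ENNReal.ofReal (G x).re) ∧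
      (∀ u v : ℝ, u < v → 0 < (ν : Measure ℝ) (Set.Ioo u v)) ∧
      ∀ (k : ℕ) (a b : Fin k → ℕ), (∀ i, 0 < a i) →
      ∃ μ : ProbabilityMeasure (Fin k → ℝ),
        Integrable (fun x : Fin k → ℝ => ∑ i, x i ^ 2) (μ : Measure (Fin k → ℝ)) ∧
        (∀ i, (μ : Measure (Fin k → ℝ)).map (fun x => x i) = (ν : Measure ℝ)) ∧
        (∀ i, ∫ x, x i ∂(μ : Measure (Fin k → ℝ)) = 0) ∧
        (∀ i j, ∀ u v d : ℕ, a i = d * v → a j = d * u → Nat.Coprime u v →
          ∫ x, x i * x j ∂(μ : Measure (Fin k → ℝ)) =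
            (∑' h : ℕ, (r (u * h) : ℝ) * r (v * h) / ((u : ℝ) * v * (h : ℝ) ^ 2) ^ (3 / 4 : ℝ))
              / (2 * Real.pi ^ 2)) ∧
        (∀ S : Set ℕ, 1 ∈ S → (∀ m n : ℕ, Nat.Coprime m n → (m * n ∈ S ↔ m ∈ S ∧ n ∈ S)) →
          (∃ κ : ℝ, 0 < κ ∧ ∃ y₀ : ℕ, ∀ y : ℕ, y₀ ≤ y →
            κ * y ≤ ∑ p ∈ (Finset.Icc 1 y).filter (fun p => p.Prime ∧ p ∈ S), Real.log p) →
          (∀ f : (Fin k → ℝ) → ℝ, Continuous f → (∃ C : ℝ, ∀ x, |f x| ≤ C * (1 + ∑ i, x i ^ 2)) →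
            ∀ η : ℝ, 0 < η → ∃ N₀ : ℕ, ∀ N : ℕ, N₀ ≤ N → ∀ α : ℝ, ∀ g : ℕ → ℂ, (∀ n, ‖g n‖ ≤ 1) →
              (∀ m n : ℕ, Nat.Coprime m n → g (m * n) = g m * g n) →
              ‖∑ n ∈ (Finset.Icc 1 N).filter (· ∈ S), g n * Complex.exp (2 * Real.pi * Complex.I * (α * n)) *
                ((f (fun i => E ((a i : ℝ) * n + b i)) - ∫ x, f x ∂(μ : Measure (Fin k → ℝ)) : ℝ) : ℂ)‖ ≤
                η * ((Finset.Icc 1 N).filter (· ∈ S)).card) ∧
          (∀ D : Set (Fin k → ℝ), (μ : Measure (Fin k → ℝ)) (frontier D) = 0 →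
            ∀ η : ℝ, 0 < η → ∃ N₀ : ℕ, ∀ N : ℕ, N₀ ≤ N → ∀ α : ℝ, ∀ g : ℕ → ℂ, (∀ n, ‖g n‖ ≤ 1) →
              (∀ m n : ℕ, Nat.Coprime m n → g (m * n) = g m * g n) →
              ‖∑ n ∈ (Finset.Icc 1 N).filter (· ∈ S), g n * Complex.exp (2 * Real.pi * Complex.I * (α * n)) *
                (((if (fun i => E ((a i : ℝ) * n + b i)) ∈ D then (1 : ℝ) else 0)
                  - (μ : Measure (Fin k → ℝ)).real D : ℝ) : ℂ)‖ ≤
                η * ((Finset.Icc 1 N).filter (· ∈ S)).card)) ∧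
        (∀ D : Set (Fin k → ℝ), (μ : Measure (Fin k → ℝ)) (frontier D) = 0 →
          Tendsto (fun N : ℕ =>
            ((((Finset.Icc 1 N).filter (fun n => (∃ x y : ℕ, n = x ^ 2 + y ^ 2) ∧
              (fun i => E ((a i : ℝ) * n + b i)) ∈ D)).card : ℕ) : ℝ) /
            ((((Finset.Icc 1 N).filter (fun n => ∃ x y : ℕ, n = x ^ 2 + y ^ 2)).card : ℕ) : ℝ)) atTop
            (𝓝 ((μ : Measure (Fin k → ℝ)).real D))) := by
  have hEc : E = Pool.Agent.H425R3.JL.Ec := funext hE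
  subst hEc
  exact Pool.Agent.D0H53.SQ.circ_sparse r hr

end Pool.Agent.Results.MP_fb29e9_nt.SparseMultiplicativeSets
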